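import Pool.Agent.H61.SC.Stmts
import Pool.Agent.H61.SC.Ex

/-!
# Row CUT of project SC: basic facts on minimal cuts
-/

namespace Pool.SC

open Finset

section
variable {a b : ℝ} {R : Rect} {z1 z2 : ℤ} {P : Set V → Prop} {T : Finset Ed} {S : Set V}

theorem cuts_subset (R : Rect) (z1 z2 : ℤ) (S : Set V) : cuts R z1 z2 S ⊆ eds R z1 z2 := by
  classical
  unfold cuts
  exact Finset.filter_subset _ _

theorem mem_cuts {e : Ed} : e ∈ cuts R z1 z2 S ↔ e ∈ eds R z1 z2 ∧ cutE S e := by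
  classical
  unfold cuts
  exact Finset.mem_filter

theorem cap_ge (hab : a < b) (T : Finset Ed) (e : Ed) : a ≤ cap a b T e := by
  unfold cap; split_ifs <;> linarith

theorem cap_le (hab : a < b) (T : Finset Ed) (e : Ed) : cap a b T e ≤ b := by
  unfold cap; split_ifs <;> linarith

theorem en_ge_card (hab : a < b) (T : Finset Ed) (R : Rect) (z1 z2 : ℤ) (S : Set V) :
    a * ((cuts R z1 z2 S).card : ℝ) ≤ en a b T R z1 z2 S := by
  unfold en
  rw [mul_comm, ← nsmul_eq_mul]
  exact Finset.card_nsmul_le_sum _ _ _ fun e _ => cap_ge hab T e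

theorem en_le_card (hab : a < b) (T : Finset Ed) (R : Rect) (z1 z2 : ℤ) (S : Set V) :
    en a b T R z1 z2 S ≤ b * ((cuts R z1 z2 S).card : ℝ) := by
  unfold en
  rw [mul_comm, ← nsmul_eq_mul]
  exact Finset.sum_le_card_nsmul _ _ _ fun e _ => cap_le hab T e

theorem en_nonneg (ha : 0 < a) (hab : a < b) (T : Finset Ed) (R : Rect) (z1 z2 : ℤ) (S : Set V) :
    0 ≤ en a b T R z1 z2 S :=
  le_trans (mul_nonneg ha.le (Nat.cast_nonneg _)) (en_ge_card hab T R z1 z2 S)

theorem flow_set_finite (a b : ℝ) (R : Rect) (z1 z2 : ℤ) (P : Set V → Prop) (T : Finset Ed) :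
    {r : ℝ | ∃ S : Set V, adm R z1 z2 S ∧ P S ∧ r = en a b T R z1 z2 S}.Finite := by
  refine Set.Finite.subset
    (((eds R z1 z2).powerset.image (fun D => ∑ e ∈ D, cap a b T e)).finite_toSet) ?_
  rintro r ⟨S, -, -, rfl⟩
  simp only [Finset.coe_image, Set.mem_image, Finset.mem_coe, Finset.mem_powerset]
  exact ⟨cuts R z1 z2 S, cuts_subset R z1 z2 S, rfl⟩

theorem flowC_le_en (a b : ℝ) (T : Finset Ed) (hS : adm R z1 z2 S) (hP : P S) :
    flowC a b R z1 z2 P T ≤ en a b T R z1 z2 S :=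
  csInf_le (flow_set_finite a b R z1 z2 P T).bddBelow ⟨S, hS, hP, rfl⟩

theorem exists_min (a b : ℝ) (T : Finset Ed) (hne : ∃ S0 : Set V, adm R z1 z2 S0 ∧ P S0) :
    ∃ S : Set V, adm R z1 z2 S ∧ P S ∧
      en a b T R z1 z2 S = flowC a b R z1 z2 P T := by
  obtain ⟨S0, h1, h2⟩ := hne
  have hmem : sInf {r : ℝ | ∃ S : Set V, adm R z1 z2 S ∧ P S ∧ r = en a b T R z1 z2 S} ∈
      {r : ℝ | ∃ S : Set V, adm R z1 z2 S ∧ P S ∧ r = en a b T R z1 z2 S} :=
    Set.Nonempty.csInf_mem ⟨_, S0, h1, h2, rfl⟩ (flow_set_finite a b R z1 z2 P T)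
  obtain ⟨S, hS, hP, hr⟩ := hmem
  exact ⟨S, hS, hP, hr.symm⟩

theorem en_mono (hab : a < b) {T T' : Finset Ed} (h : T ⊆ T') (R : Rect) (z1 z2 : ℤ)
    (S : Set V) : en a b T R z1 z2 S ≤ en a b T' R z1 z2 S := by
  unfold en
  refine Finset.sum_le_sum fun e _ => ?_
  unfold cap
  by_cases h1 : e ∈ T
  · rw [if_pos h1, if_pos (h h1)]
  · rw [if_neg h1]
    split_ifs <;> linarith

theorem en_inter (a b : ℝ) (T : Finset Ed) (R : Rect) (z1 z2 : ℤ) (S : Set V) :
    en a b (T ∩ eds R z1 z2) R z1 z2 S = en a b T R z1 z2 S := by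
  unfold en
  refine Finset.sum_congr rfl fun e he => ?_
  have he' : e ∈ eds R z1 z2 := cuts_subset R z1 z2 S he
  unfold cap
  simp [he']

/-- changing the state of an edge off the cut does not change the energy -/
theorem en_insert_of_notMem (a b : ℝ) (T : Finset Ed) {e : Ed} (he : e ∉ cuts R z1 z2 S) :
    en a b (insert e T) R z1 z2 S = en a b (T.erase e) R z1 z2 S := by
  unfold en
  refine Finset.sum_congr rfl fun x hx => ?_
  have hxe : x ≠ e := fun h => he (h ▸ hx)
  unfold cap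
  simp [hxe]

theorem en_insert_le (hab : a < b) (T : Finset Ed) (e : Ed) (R : Rect) (z1 z2 : ℤ) (S : Set V) :
    en a b (insert e T) R z1 z2 S ≤ en a b (T.erase e) R z1 z2 S + (b - a) := by
  by_cases he : e ∈ cuts R z1 z2 S
  · unfold en
    rw [← Finset.add_sum_erase _ _ he, ← Finset.add_sum_erase _ _ he]
    have h1 : cap a b (insert e T) e = b := by simp [cap]
    have h2 : cap a b (T.erase e) e = a := by simp [cap]
    have h3 : ∑ x ∈ (cuts R z1 z2 S).erase e, cap a b (insert e T) x =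
        ∑ x ∈ (cuts R z1 z2 S).erase e, cap a b (T.erase e) x := by
      refine Finset.sum_congr rfl fun x hx => ?_
      have hxe : x ≠ e := (Finset.mem_erase.1 hx).1
      unfold cap
      simp [hxe]
    rw [h1, h2, h3]
    linarith
  · rw [en_insert_of_notMem a b T he]
    linarith

theorem cut_thm : S_CUT := by
  intro a b R z1 z2 P A ha hab _hz hS0
  obtain ⟨S0, hS0a, hS0P, hS0c⟩ := hS0
  have hb : 0 < b := ha.trans hab
  have hA : 0 ≤ A := le_trans (Nat.cast_nonneg _) hS0c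
  have hne : ∃ S0 : Set V, adm R z1 z2 S0 ∧ P S0 := ⟨S0, hS0a, hS0P⟩
  have hup : ∀ T, flowC a b R z1 z2 P T ≤ b * A := fun T =>
    (flowC_le_en a b T hS0a hS0P).trans
      ((en_le_card hab T R z1 z2 S0).trans (mul_le_mul_of_nonneg_left hS0c hb.le))
  have hmin : ∀ T, ∃ S : Set V, adm R z1 z2 S ∧ P S ∧
      en a b T R z1 z2 S = flowC a b R z1 z2 P T ∧
      ((cuts R z1 z2 S).card : ℝ) ≤ b / a * A := by
    intro T
    obtain ⟨S, h1, h2, h3⟩ := exists_min (P := P) a b T hne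
    refine ⟨S, h1, h2, h3, ?_⟩
    have h4 := en_ge_card hab T R z1 z2 S
    have h5 := hup T
    rw [div_mul_eq_mul_div, le_div_iff₀ ha]
    linarith
  have hmono : ∀ T T' : Finset Ed, T ⊆ T' →
      flowC a b R z1 z2 P T ≤ flowC a b R z1 z2 P T' := by
    intro T T' h
    obtain ⟨S, h1, h2, h3, -⟩ := hmin T'
    rw [← h3]
    exact (flowC_le_en a b T h1 h2).trans (en_mono hab h R z1 z2 S)
  have hgr0 : ∀ e T, 0 ≤ gr e (flowC a b R z1 z2 P) T := by
    intro e T
    have := hmono (T.erase e) (insert e T)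
      ((Finset.erase_subset _ _).trans (Finset.subset_insert _ _))
    unfold gr
    linarith
  have hgr1 : ∀ e T, gr e (flowC a b R z1 z2 P) T ≤ b - a := by
    intro e T
    obtain ⟨S, h1, h2, h3, -⟩ := hmin (T.erase e)
    have h4 := flowC_le_en a b (insert e T) h1 h2
    have h5 := en_insert_le hab T e R z1 z2 S
    unfold gr
    linarith
  have hgr2 : ∀ e T (S : Set V), adm R z1 z2 S → P S →
      en a b (T.erase e) R z1 z2 S = flowC a b R z1 z2 P (T.erase e) →
      e ∉ cuts R z1 z2 S → gr e (flowC a b R z1 z2 P) T = 0 := by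
    intro e T S h1 h2 h3 h4
    refine le_antisymm ?_ (hgr0 e T)
    have h5 := flowC_le_en a b (insert e T) h1 h2
    rw [en_insert_of_notMem a b T h4, h3] at h5
    unfold gr
    linarith
  refine ⟨hmin, fun T S h1 h2 => flowC_le_en a b T h1 h2, fun T => ⟨?_, hup T⟩, ?_,
    fun e T => ⟨hgr0 e T, hgr1 e T⟩, hgr2, ?_⟩
  · obtain ⟨S, -, -, h3, -⟩ := hmin T
    rw [← h3]
    exact en_nonneg ha hab T R z1 z2 S
  · intro T
    unfold flowC
    congr 1
    ext r
    simp only [en_inter]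
  · intro F T
    obtain ⟨S, h1, h2, h3, h4⟩ := hmin T
    have hz : ∀ e ∈ F \ T, e ∉ cuts R z1 z2 S → gr e (flowC a b R z1 z2 P) T ^ 2 = 0 := by
      intro e he hec
      have heT : T.erase e = T := Finset.erase_eq_of_notMem (Finset.mem_sdiff.1 he).2
      have := hgr2 e T S h1 h2 (by rw [heT]; exact h3) hec
      rw [this]; ring
    classical
    calc ∑ e ∈ F \ T, gr e (flowC a b R z1 z2 P) T ^ 2
        = ∑ e ∈ (F \ T).filter (fun e => e ∈ cuts R z1 z2 S),
            gr e (flowC a b R z1 z2 P) T ^ 2 := by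
          symm
          refine Finset.sum_subset (Finset.filter_subset _ _) fun e he hne => ?_
          refine hz e he fun h => hne (Finset.mem_filter.2 ⟨he, h⟩)
      _ ≤ ∑ e ∈ (F \ T).filter (fun e => e ∈ cuts R z1 z2 S), (b - a) ^ 2 := by
          refine Finset.sum_le_sum fun e _ => ?_
          exact pow_le_pow_left₀ (hgr0 e T) (hgr1 e T) 2
      _ = (((F \ T).filter (fun e => e ∈ cuts R z1 z2 S)).card : ℝ) * (b - a) ^ 2 := by
          rw [Finset.sum_const, nsmul_eq_mul]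
      _ ≤ ((cuts R z1 z2 S).card : ℝ) * (b - a) ^ 2 := by
          refine mul_le_mul_of_nonneg_right ?_ (sq_nonneg _)
          exact_mod_cast Finset.card_le_card fun e he => (Finset.mem_filter.1 he).2
      _ ≤ (b / a * A) * (b - a) ^ 2 := mul_le_mul_of_nonneg_right h4 (sq_nonneg _)
      _ = (b - a) ^ 2 * (b / a * A) := by ring

end

end Pool.SC
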