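import Pool.Agent.H86.SC.CUT

/-!
# Rows FLT, INV and NU of project SC
-/

namespace Pool.SC

open Finset

/-! ## FLT: the flat cut -/

theorem mem_box {R : Rect} {z1 z2 : ℤ} {v : V} :
    v ∈ box R z1 z2 ↔ (R.x ≤ v.1 ∧ v.1 < R.x + R.w) ∧ (R.y ≤ v.2.1 ∧ v.2.1 < R.y + R.l) ∧
      (z1 ≤ v.2.2 ∧ v.2.2 ≤ z2) := by
  unfold box
  simp only [Finset.mem_product, Finset.mem_Ico, Finset.mem_Icc]

theorem mem_cols {R : Rect} {q : ℤ × ℤ} :
    q ∈ R.cols ↔ (R.x ≤ q.1 ∧ q.1 < R.x + R.w) ∧ (R.y ≤ q.2 ∧ q.2 < R.y + R.l) := by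
  unfold Rect.cols
  simp only [Finset.mem_product, Finset.mem_Ico]

theorem card_cols (R : Rect) : R.cols.card = R.w * R.l := by
  unfold Rect.cols
  rw [Finset.card_product, Int.card_Ico, Int.card_Ico]
  simp

theorem mem_eds {R : Rect} {z1 z2 : ℤ} {e : Ed} :
    e ∈ eds R z1 z2 ↔ hd e ∈ box R z1 z2 ∧ tl e ∈ box R z1 z2 := by
  unfold eds hd
  simp [Finset.mem_filter, Finset.mem_product]

theorem tl_cases (e : Ed) :
    (e.1 = 0 ∧ tl e = (e.2.1 + 1, e.2.2.1, e.2.2.2)) ∨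
    (e.1 = 1 ∧ tl e = (e.2.1, e.2.2.1 + 1, e.2.2.2)) ∨
    (e.1 = 2 ∧ tl e = (e.2.1, e.2.2.1, e.2.2.2 + 1)) := by
  obtain ⟨i, x, y, h⟩ := e
  fin_cases i
  · left; simp [tl, unitv]
  · right; left; simp [tl, unitv]
  · right; right; simp [tl, unitv]

theorem flt_thm : S_FLT := by
  intro R z1 z2 hz
  refine ⟨{v | v.2.2 ≤ z1}, ?_, ?_⟩
  · intro v _
    refine ⟨fun h => h, fun h h' => ?_⟩
    have h'' : v.2.2 ≤ z1 := h'
    omega
  · have hcard : (cuts R z1 z2 {v : V | v.2.2 ≤ z1}).card ≤ R.cols.card := by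
      refine Finset.card_le_card_of_injOn (fun e : Ed => (e.2.1, e.2.2.1)) ?_ ?_
      · intro e he
        have he' := (mem_cuts.1 (Finset.mem_coe.1 he)).1
        have h1 := mem_box.1 (mem_eds.1 he').1
        refine Finset.mem_coe.2 (mem_cols.2 ⟨h1.1, h1.2.1⟩)
      · have key : ∀ e : Ed, e ∈ cuts R z1 z2 {v : V | v.2.2 ≤ z1} → e.1 = 2 ∧ e.2.2.2 = z1 := by
          intro e he
          have h2 := (mem_cuts.1 he).2
          unfold cutE hd at h2
          rcases tl_cases e with ⟨-, h⟩ | ⟨-, h⟩ | ⟨h0, h⟩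
          · rw [h] at h2
            exact absurd Iff.rfl h2
          · rw [h] at h2
            exact absurd Iff.rfl h2
          · refine ⟨h0, ?_⟩
            rw [h] at h2
            have h3 : ¬ (e.2.2.2 ≤ z1 ↔ e.2.2.2 + 1 ≤ z1) := h2
            by_contra hne
            apply h3
            constructor <;> intro <;> omega
        intro e he e' he' hee
        obtain ⟨h1, h2⟩ := key e (Finset.mem_coe.1 he)
        obtain ⟨h1', h2'⟩ := key e' (Finset.mem_coe.1 he')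
        obtain ⟨i, x, y, h⟩ := e
        obtain ⟨i', x', y', h'⟩ := e'
        simp only [Prod.mk.injEq] at hee h1 h2 h1' h2' ⊢
        exact ⟨h1.trans h1'.symm, hee.1, hee.2, h2.trans h2'.symm⟩
    rw [card_cols] at hcard
    exact_mod_cast hcard

/-! ## INV: translation invariance -/

/-- translation of edges -/
def trE (c : V) : Ed ↪ Ed := ⟨fun e => (e.1, e.2 + c), by
  intro e e' h
  simp only [Prod.mk.injEq] at h
  exact Prod.ext h.1 (add_right_cancel h.2)⟩

theorem hd_trE (c : V) (e : Ed) : hd (trE c e) = hd e + c := rfl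

theorem tl_trE (c : V) (e : Ed) : tl (trE c e) = tl e + c := by
  unfold tl trE
  simp only [Function.Embedding.coeFn_mk]
  exact add_right_comm _ _ _

section
variable (R : Rect) (z1 : ℤ) (H : ℤ)

/-- base point of the box -/
def basept : V := (R.x, R.y, z1)

theorem mem_box_trans (v : V) :
    v + basept R z1 ∈ box R z1 (z1 + H) ↔ v ∈ box (sq R.w R.l) 0 H := by
  rw [mem_box, mem_box]
  obtain ⟨x, y, h⟩ := v
  simp only [basept, sq, Prod.fst_add, Prod.snd_add]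
  constructor <;> rintro ⟨⟨_, _⟩, ⟨_, _⟩, _, _⟩ <;> refine ⟨⟨?_, ?_⟩, ⟨?_, ?_⟩, ?_, ?_⟩ <;> omega

theorem mem_cols_trans (v : V) :
    ((v + basept R z1).1, (v + basept R z1).2.1) ∈ R.cols ↔ (v.1, v.2.1) ∈ (sq R.w R.l).cols := by
  rw [mem_cols, mem_cols]
  obtain ⟨x, y, h⟩ := v
  simp only [basept, sq, Prod.fst_add, Prod.snd_add]
  constructor <;> rintro ⟨⟨_, _⟩, ⟨_, _⟩⟩ <;> refine ⟨⟨?_, ?_⟩, ⟨?_, ?_⟩⟩ <;> omega

theorem mem_eds_trans (e : Ed) :
    trE (basept R z1) e ∈ eds R z1 (z1 + H) ↔ e ∈ eds (sq R.w R.l) 0 H := by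
  rw [mem_eds, mem_eds, hd_trE, tl_trE, mem_box_trans, mem_box_trans]

theorem exists_trE (c : V) (e : Ed) : ∃ e', trE c e' = e := by
  refine ⟨(e.1, e.2 - c), ?_⟩
  unfold trE
  simp

theorem eds_trans :
    eds R z1 (z1 + H) = (eds (sq R.w R.l) 0 H).map (trE (basept R z1)) := by
  ext e
  obtain ⟨e', rfl⟩ := exists_trE (basept R z1) e
  rw [mem_eds_trans, Finset.mem_map']

theorem adm_trans (S : Set V) :
    adm R z1 (z1 + H) S ↔ adm (sq R.w R.l) 0 H {v | v + basept R z1 ∈ S} := by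
  unfold adm
  constructor
  · intro h v hv
    have h' := h (v + basept R z1) ((mem_cols_trans R z1 v).2 hv)
    obtain ⟨x, y, k⟩ := v
    simp only [basept, Prod.snd_add] at h'
    refine ⟨fun hk => h'.1 (by simp only at hk ⊢; omega), fun hk => h'.2 (by simp only at hk ⊢; omega)⟩
  · intro h v hv
    have hv' : v = (v - basept R z1) + basept R z1 := by abel
    have h' := h (v - basept R z1) ((mem_cols_trans R z1 _).1 (by rw [← hv']; exact hv))
    have h1 : (v - basept R z1).2.2 = v.2.2 - z1 := rfl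
    rw [h1] at h'
    have h2 : (v - basept R z1 ∈ {v | v + basept R z1 ∈ S}) ↔ v ∈ S := by
      show (v - basept R z1) + basept R z1 ∈ S ↔ v ∈ S
      rw [← hv']
    rw [h2] at h'
    exact ⟨fun hk => h'.1 (by omega), fun hk => h'.2 (by omega)⟩

theorem cuts_trans (S : Set V) :
    cuts R z1 (z1 + H) S
      = (cuts (sq R.w R.l) 0 H {v | v + basept R z1 ∈ S}).map (trE (basept R z1)) := by
  ext e
  obtain ⟨e', rfl⟩ := exists_trE (basept R z1) e
  rw [Finset.mem_map', mem_cuts, mem_cuts, mem_eds_trans]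
  unfold cutE
  rw [hd_trE, tl_trE]
  rfl

theorem en_trans (a b : ℝ) (T : Finset Ed) (S : Set V) :
    en a b (T.map (trE (basept R z1))) R z1 (z1 + H) S
      = en a b T (sq R.w R.l) 0 H {v | v + basept R z1 ∈ S} := by
  unfold en
  rw [cuts_trans, Finset.sum_map]
  refine Finset.sum_congr rfl fun e _ => ?_
  unfold cap
  simp only [Finset.mem_map']

theorem flow_trans (a b : ℝ) (T : Finset Ed) :
    flow a b R z1 (z1 + H) (T.map (trE (basept R z1))) = flow a b (sq R.w R.l) 0 H T := by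
  unfold flow flowC
  congr 1
  ext r
  constructor
  · rintro ⟨S, hS, -, rfl⟩
    exact ⟨{v | v + basept R z1 ∈ S}, (adm_trans R z1 H S).1 hS, trivial, en_trans R z1 H a b T S⟩
  · rintro ⟨S, hS, -, rfl⟩
    have hSS : {v : V | v + basept R z1 ∈ {v : V | v - basept R z1 ∈ S}} = S := by
      ext v
      show v + basept R z1 - basept R z1 ∈ S ↔ v ∈ S
      rw [add_sub_cancel_right]
    refine ⟨{v | v - basept R z1 ∈ S}, (adm_trans R z1 H _).2 (by rw [hSS]; exact hS), trivial, ?_⟩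
    rw [en_trans, hSS]

end

theorem flow_inter (a b : ℝ) (R : Rect) (z1 z2 : ℤ) (T : Finset Ed) :
    flow a b R z1 z2 (T ∩ eds R z1 z2) = flow a b R z1 z2 T := by
  unfold flow flowC
  congr 1
  ext r
  simp only [en_inter]

theorem inv_thm : S_INV := by
  intro p a b R z1 H F _ _ _ _ _ hF
  rw [ex_restrict hF (fun s _ => flow_inter a b R z1 (z1 + H) s), eds_trans, ex_map]
  unfold ph
  refine ex_congr fun s _ => ?_
  exact flow_trans R z1 H a b s

/-! ## NU -/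

theorem ph_bounds {p a b : ℝ} (w l : ℕ) {H : ℕ} (hp0 : 0 < p) (hp1 : p < 1) (ha : 0 < a)
    (hab : a < b) (hH : 1 ≤ H) : 0 ≤ ph p a b w l H ∧ ph p a b w l H ≤ b * (w * l) := by
  have hz : (0 : ℤ) < (H : ℤ) := by omega
  obtain ⟨S0, h1, h2⟩ := flt_thm (sq w l) 0 H hz
  obtain ⟨-, -, h3, -⟩ := cut_thm a b (sq w l) 0 H (fun _ => True) ((w : ℝ) * l) ha hab hz
    ⟨S0, h1, trivial, h2⟩
  exact ⟨ex_nonneg hp0.le hp1.le fun s _ => (h3 s).1,
    ex_le_const hp0.le hp1.le fun s _ => (h3 s).2⟩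

theorem nu_thm : S_NU := by
  intro p a b H hp0 hp1 ha hab hH
  have hb : 0 < b := ha.trans hab
  have hbdd : BddAbove (Set.range fun q : ℕ × ℕ =>
      ph p a b (q.1 + 1) (q.2 + 1) H / (((q.1 : ℝ) + 1) * ((q.2 : ℝ) + 1))) := by
    refine ⟨b, ?_⟩
    rintro _ ⟨q, rfl⟩
    have h := (ph_bounds (p := p) (a := a) (b := b) (q.1 + 1) (q.2 + 1) hp0 hp1 ha hab hH).2
    push_cast at h
    have hpos : 0 < ((q.1 : ℝ) + 1) * ((q.2 : ℝ) + 1) := by positivity
    show ph p a b (q.1 + 1) (q.2 + 1) H / (((q.1 : ℝ) + 1) * ((q.2 : ℝ) + 1)) ≤ b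
    rw [div_le_iff₀ hpos]
    exact h
  refine ⟨?_, ?_, ?_⟩
  · refine le_trans ?_ (le_ciSup hbdd (0, 0))
    have h := (ph_bounds (p := p) (a := a) (b := b) (0 + 1) (0 + 1) hp0 hp1 ha hab hH).1
    exact div_nonneg h (by positivity)
  · refine ciSup_le fun q => ?_
    have h := (ph_bounds (p := p) (a := a) (b := b) (q.1 + 1) (q.2 + 1) hp0 hp1 ha hab hH).2
    push_cast at h
    have hpos : 0 < ((q.1 : ℝ) + 1) * ((q.2 : ℝ) + 1) := by positivity
    rw [div_le_iff₀ hpos]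
    exact h
  · intro w l
    rcases Nat.eq_zero_or_pos w with rfl | hw
    · have h := (ph_bounds (p := p) (a := a) (b := b) 0 l hp0 hp1 ha hab hH).2
      simpa using h
    rcases Nat.eq_zero_or_pos l with rfl | hl
    · have h := (ph_bounds (p := p) (a := a) (b := b) w 0 hp0 hp1 ha hab hH).2
      simpa using h
    obtain ⟨w', rfl⟩ : ∃ w', w = w' + 1 := ⟨w - 1, by omega⟩
    obtain ⟨l', rfl⟩ : ∃ l', l = l' + 1 := ⟨l - 1, by omega⟩
    have h := le_ciSup hbdd (w', l')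
    have hpos : 0 < ((w' : ℝ) + 1) * ((l' : ℝ) + 1) := by positivity
    have h' : ph p a b (w' + 1) (l' + 1) H / (((w' : ℝ) + 1) * ((l' : ℝ) + 1)) ≤ nu p a b H := h
    rw [div_le_iff₀ hpos] at h'
    push_cast
    exact h'

end Pool.SC
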